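import Pool.Agent.H23.GA.Targets
import Pool.Agent.H27.GW.GF
import Pool.Agent.H54.GA.AP
import Pool.Agent.H54.GA.RD
import Pool.Agent.H54.GA.FD
import Pool.Agent.H22.GA.RO
import Pool.Agent.H92.GA.Sv
import Pool.Agent.H42.GA.CT

/-!
# Perfect spanning sets of every radius: the sizes have density zero

For every `s ≥ 2` the set of all `m` such that some finite abelian group has a perfect `s`-spanning set
of size `m` has natural density zero.

Outline of the proof. Let `A` be a perfect `s`-spanning set of size `m` of `G`, and let `p > s` be a
prime dividing `|G| = a(m, s)`. The image of `{0} ∪ A ∪ -A` in a quotient of order `p` is a weight `τ` on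
`ℤ/p`, and its cosine sums `v_t` satisfy the polynomial equation of degree `s` that comes from the
generating function of the ball of radius `s`.

* All `v_t`, `t ≠ 0`, are `O(√m)`, and in fact `v_t = ρ_t √m + O(1)` with `ρ_t` in a finite set (the zeros
  of a Hermite polynomial).
* By Fourier inversion the integers `τ(c) - τ(0)` are `λ_c √m + O(1)` with `λ_c` in a finite set. They
  determine all `v_t`, and the equation shows that they determine `m` up to finitely many
  possibilities, unless `s` is odd and all `v_t` vanish, and then `p` divides `2m + 1`. Hence at most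
  `O(√Y)` sizes `m < Y` are possible with `p ∣ a(m, s)` (and `p ∤ 2m + 1` if `s` is odd).
* The polynomial `a(m, s)` (divided by `2m + 1` if `s` is odd) has a zero modulo `p` for a set of primes
  `p` whose sum of reciprocals diverges (by the pole of a Dedekind zeta function). For each
  such `p` one residue class modulo `p` is excluded up to density zero, and the sieve finishes the
  proof.
-/

set_option autoImplicit false

open Filter Topology

namespace Pool.Agent.H23.Sup684.DensityZero

open Pool.Agent.H23.GW Pool.Agent.H23.GA

/-- For every `s ≥ 2` the number of all `m < Y` such that some finite abelian group has a perfect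
`s`-spanning set of size `m`, divided by `Y`, tends to `0` for `Y → ∞`. -/
theorem result :
    ∀ s : ℕ, 2 ≤ s → Tendsto (fun Y : ℕ => (Nat.card {m : ℕ // m < Y ∧
      ∃ (G : Type) (_ : AddCommGroup G) (_ : Finite G) (A : Finset G),
        A.card = m ∧ PerfectSpanning A s} : ℝ) / (Y : ℝ)) atTop (𝓝 0) := by
  classical
  intro s hs
  have hRD : T_RD := Pool.Agent.H54.GA.RD.rd Pool.Agent.H27.GW.gf
  have hCT : T_CT := Pool.Agent.H42.GA.ct (Pool.Agent.H42.GA.nd Pool.Agent.H42.GA.bd)
  have hAP : T_AP := Pool.Agent.H54.GA.ap Pool.Agent.H27.GW.gf
  have hFD : T_FD :=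
    Pool.Agent.H54.GA.FD.fd hRD hCT hAP Pool.Agent.H22.GA.ro Pool.Agent.H92.GA.sv
  have h := hFD.1 s hs
  refine h.congr fun Y => ?_
  congr 2
  symm
  rw [Nat.subtype_card]
  intro m
  simp only [Finset.mem_filter, Finset.mem_range, IsSize]

end Pool.Agent.H23.Sup684.DensityZero
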