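import Pool.Agent.H23.GA.Targets
import Pool.Agent.H27.GW.GF
import Pool.Agent.H54.GA.AP
import Pool.Agent.H54.GA.RD
import Pool.Agent.H54.GA.FD
import Pool.Agent.H22.GA.RO
import Pool.Agent.H92.GA.Sv
import Pool.Agent.H42.GA.CT

/-!
# Perfect spanning sets in groups with a given prime divisor

Let `s ≥ 2` and let `p > s` be a prime. Up to `Y` there are at most `K √Y` sizes `m` such that some finite
abelian group `G` with `p ∣ |G|` (and `p ∤ 2m + 1` if `s` is odd) has a perfect `s`-spanning set of size
`m`.

Outline of the proof. Let `A` be a perfect `s`-spanning set of size `m` of `G`. The image of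
`{0} ∪ A ∪ -A` in a quotient of order `p` is a weight `τ` on `ℤ/p`, and its cosine sums `v_t` satisfy the
polynomial equation of degree `s` that comes from the generating function of the ball of radius `s`.

* All `v_t`, `t ≠ 0`, are `O(√m)`, and in fact `v_t = ρ_t √m + O(1)` with `ρ_t` in a finite set (the zeros
  of a Hermite polynomial).
* By Fourier inversion the integers `τ(c) - τ(0)` are `λ_c √m + O(1)` with `λ_c` in a finite set. They
  determine all `v_t`, and the equation shows that they determine `m` up to finitely many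
  possibilities, unless `s` is odd and all `v_t` vanish, and then `p` divides `2m + 1`.
-/

set_option autoImplicit false

namespace Pool.Agent.H23.Sup684.PrimeDivisors

open Pool.Agent.H23.GW Pool.Agent.H23.GA

/-- For every `s ≥ 2` and every prime `p > s` there is `K` such that for all `Y` there are at most `K √Y`
numbers `m < Y`, with `p ∤ 2m + 1` if `s` is odd, for which some finite abelian group of order
divisible by `p` has a perfect `s`-spanning set of size `m`. -/
theorem result :
    ∀ s p : ℕ, 2 ≤ s → p.Prime → s < p → ∃ K : ℝ, ∀ Y : ℕ,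
      (Nat.card {m : ℕ // m < Y ∧ (Even s ∨ ¬ p ∣ 2 * m + 1) ∧
        ∃ (G : Type) (_ : AddCommGroup G) (_ : Finite G) (A : Finset G),
          p ∣ Nat.card G ∧ A.card = m ∧ PerfectSpanning A s} : ℝ) ≤ K * √(Y : ℝ) := by
  classical
  intro s p hs hp hsp
  have hRD : T_RD := Pool.Agent.H54.GA.RD.rd Pool.Agent.H27.GW.gf
  have hCT : T_CT := Pool.Agent.H42.GA.ct (Pool.Agent.H42.GA.nd Pool.Agent.H42.GA.bd)
  have hAP : T_AP := Pool.Agent.H54.GA.ap Pool.Agent.H27.GW.gf
  have hFD : T_FD :=
    Pool.Agent.H54.GA.FD.fd hRD hCT hAP Pool.Agent.H22.GA.ro Pool.Agent.H92.GA.sv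
  obtain ⟨K, hK⟩ := hFD.2 s p hs hp hsp
  refine ⟨K, fun Y => ?_⟩
  refine le_trans ?_ (hK Y)
  rw [Nat.cast_le, Nat.subtype_card
    ((Finset.range Y).filter fun m => (Even s ∨ ¬ p ∣ 2 * m + 1) ∧
      ∃ (G : Type) (_ : AddCommGroup G) (_ : Finite G) (A : Finset G),
          p ∣ Nat.card G ∧ A.card = m ∧ PerfectSpanning A s)]
  · apply Finset.card_le_card
    intro m hm
    rw [Finset.mem_filter] at hm ⊢
    obtain ⟨hmY, hodd, G, i₁, i₂, A, hpG, hA, hP⟩ := hm
    have := Fintype.ofFinite G
    refine ⟨hmY, ⟨G, i₁, i₂, A, hA, hP⟩, ?_, hodd⟩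
    rw [← hA, ← (hRD G A s p hP (by omega)).1, ← Nat.card_eq_fintype_card]
    exact hpG
  · intro m
    simp only [Finset.mem_filter, Finset.mem_range]

end Pool.Agent.H23.Sup684.PrimeDivisors
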