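import Pool.Agent.H23.GW.Targets
import Pool.Agent.H27.GW.GF
import Pool.Agent.H27.GW.TI
import Pool.Agent.H27.GW.VZ
import Pool.Agent.H27.GW.PR
import Pool.Agent.H81.GW.SU
import Pool.Agent.H81.GW.SB
import Pool.Agent.H41.GW.NT
import Pool.Agent.H41.GW.DI
import Pool.Agent.H41.GW.EX
import Pool.Agent.H24.GW.MA

/-!
# Perfect 3-spanning sets: the exponent of the group

Let `A` be a perfect 3-spanning set of size `m` of a finite abelian group `G`, so that
`|G| = (2m+1)(2m²+2m+3)/3`, about `4m³/3`. If `m` is large then the exponent of `G` is less than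
`m^(1+δ)`. In particular a cyclic group has no perfect 3-spanning set of large size.

Outline of the proof. Let `T = {0} ∪ A ∪ -A`, and let `V(χ)` be the sum of `χ` over `T`.

* The generating function of the ball of radius three gives
  `V(χ)³ + 3 V(χ) V(2χ) + 2 V(3χ) = 6m V(χ)` for all `χ ≠ 0`. Hence `3` does not divide `|G|`, and either
  `|V(χ)| ≤ 3/(2√m)` or `V(χ)² = 6m + O(√m)`; by the second moment the latter holds for about one
  third of all `χ`.
* The product of all nonzero `V(χ)` is a nonzero integer. Hence for at least one third of all `χ` one has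
  `V(χ) = 0`, and this set is stable under Galois conjugation. The fourth moments
  `∑ V(χ)² V(tχ)²`, averaged over the units `t` modulo `|G|`, are therefore larger by one half than they
  would be if `V(χ)` and `V(tχ)` were independent.
* The fourth moments count solutions of `x + y + t(z + w) = 0` in `T`; only `g` and `tg` with few
  coincidences contribute more than expected, and these are few if the exponent is large, because
  the number of pairs in `T × T` with sum in a subgroup `K` is at most `(2m+1)²|K|/|G| + 9m`.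
-/

set_option autoImplicit false

namespace Pool.Agent.H23.Sup684.RadiusThreeExponent

open Pool.Agent.H23.GW

/-- (i) For every `δ > 0`, if a finite abelian group `G` has a perfect 3-spanning set `A` of size
`m ≥ m₀(δ)` then the exponent of `G` is less than `m^(1+δ)`.

(ii) In particular, no cyclic group has a perfect 3-spanning set of size at least `m₀`. -/
theorem result :
    (∀ δ : ℝ, 0 < δ → ∃ m₀ : ℕ, ∀ (G : Type) [AddCommGroup G] [Finite G] (A : Finset G),
      m₀ ≤ A.card → PerfectSpanning A 3 →
      (AddMonoid.exponent G : ℝ) < (A.card : ℝ) ^ (1 + δ)) ∧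
    ∃ m₀ : ℕ, ∀ (G : Type) [AddCommGroup G] [Finite G] [IsAddCyclic G] (A : Finset G),
      m₀ ≤ A.card → ¬ PerfectSpanning A 3 := by
  classical
  have hTI : T_TI := Pool.Agent.H27.GW.ti Pool.Agent.H27.GW.gf
  have hDI : T_DI := Pool.Agent.H41.GW.di Pool.Agent.H41.GW.nt
  have hSB : T_SB := Pool.Agent.H81.GW.sb hDI
  have hMA : T_MA :=
    Pool.Agent.H24.GW.ma Pool.Agent.H81.GW.su Pool.Agent.H27.GW.vz Pool.Agent.H27.GW.pr hDI
  have hEX : T_EX := Pool.Agent.H41.GW.ex hMA hSB
  refine ⟨?_, ?_⟩
  · intro δ hδ
    obtain ⟨m₃, h₃⟩ := hEX δ hδ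
    refine ⟨m₃, ?_⟩
    intro G _ _ A hm hA
    have := Fintype.ofFinite G
    obtain ⟨T, hT⟩ := hTI G A hA
    exact h₃ A.card hm G T hT
  · obtain ⟨m₃, h₃⟩ := hEX 1 one_pos
    refine ⟨max m₃ 1, ?_⟩
    intro G _ _ _ A hm hA
    have := Fintype.ofFinite G
    obtain ⟨T, hT⟩ := hTI G A hA
    have h := h₃ A.card (le_trans (le_max_left _ _) hm) G T hT
    have hm1 : 1 ≤ A.card := le_trans (le_max_right _ _) hm
    rw [IsAddCyclic.exponent_eq_card, Nat.card_eq_fintype_card] at h
    have hc := hT.cardG
    norm_num at h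
    have h' : Fintype.card G < A.card ^ 2 := by exact_mod_cast h
    nlinarith [Nat.zero_le (A.card ^ 3), Nat.mul_le_mul hm1 hm1]

end Pool.Agent.H23.Sup684.RadiusThreeExponent
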