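import Pool.Agent.H23.GW.Targets
import Pool.Agent.H27.GW.GF
import Pool.Agent.H27.GW.TI
import Pool.Agent.H27.GW.VZ
import Pool.Agent.H27.GW.PR
import Pool.Agent.H81.GW.SU
import Pool.Agent.H81.GW.SB
import Pool.Agent.H81.GW.AR
import Pool.Agent.H41.GW.NT
import Pool.Agent.H41.GW.DI
import Pool.Agent.H24.GW.MA
import Pool.Agent.H24.GW.GP

/-!
# Perfect 3-spanning sets: the sizes

Let `A` be a perfect 3-spanning set of large size `m` of a finite abelian group `G`, so that
`|G| = (2m+1)(2m²+2m+3)/3`. Then `3` does not divide `|G|`, for every prime `p ≥ 11` dividing `|G|` the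
`p`-part `P` of `|G|` satisfies `2(p-5)m < 25P` (so `p²` divides `|G|`), and `2m+1 = u p^k` with
`u ∈ {1, 3, 5, 7, 21}` and a prime `5 ≤ p ≤ 29`. In particular up to `Y` only `O(log Y)` sizes `m` are
possible.

Outline of the proof. Let `T = {0} ∪ A ∪ -A`, and let `V(χ)` be the sum of `χ` over `T`.

* The generating function of the ball of radius three gives
  `V(χ)³ + 3 V(χ) V(2χ) + 2 V(3χ) = 6m V(χ)` for all `χ ≠ 0`. Hence `3` does not divide `|G|`, and either
  `|V(χ)| ≤ 3/(2√m)` or `V(χ)² = 6m + O(√m)`; by the second moment the latter holds for about one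
  third of all `χ`.
* The product of all nonzero `V(χ)` is a nonzero integer. Hence for at least one third of all `χ` one has
  `V(χ) = 0`, and this set is stable under Galois conjugation. The fourth moments
  `∑ V(χ)² V(tχ)²`, averaged over the units `t ≡ 1` modulo the prime-to-`p` part of `|G|`, are therefore
  larger by one half than they would be if `V(χ)` and `V(tχ)` were independent.
* The fourth moments count solutions of `x + y + t(z + w) = 0` in `T`. If the `p`-part of `|G|` is small
  then there are too few of them, because the number of pairs in `T × T` with sum in a subgroup `K` is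
  at most `(2m+1)²|K|/|G| + 9m`.
* Since `2(2m²+2m+3) = (2m+1)² + 5`, a prime `p ≥ 7` dividing `2m+1` does not divide `2m²+2m+3`, and the
  bound for the `p`-parts leaves only the possibilities above for `2m+1`.
-/

set_option autoImplicit false

namespace Pool.Agent.H23.Sup684.RadiusThreeSizes

open Pool.Agent.H23.GW

/-- There is `m₀` such that if a finite abelian group `G` has a perfect 3-spanning set `A` of size
`m ≥ m₀`, then
* `3` does not divide `|G|`,
* for every prime `p ≥ 11` dividing `|G|`, and for `p = 7` if `49` divides `|G|`,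
  `2 (p - 5) m < 25 p^v` where `p^v` is the exact power of `p` dividing `|G|`,
* `2m + 1 = u p^k` with `u ∈ {1, 3, 5, 7, 21}` and a prime `5 ≤ p ≤ 29`. -/
theorem result :
    ∃ m₀ : ℕ, ∀ (G : Type) [AddCommGroup G] [Finite G] (A : Finset G), m₀ ≤ A.card →
      PerfectSpanning A 3 → ¬ 3 ∣ Nat.card G ∧
        (∀ p : ℕ, p.Prime → p ∣ Nat.card G → (11 ≤ p ∨ (p = 7 ∧ 49 ∣ Nat.card G)) →
          2 * (p - 5) * A.card < 25 * p ^ (Nat.card G).factorization p) ∧
        ∃ u p k : ℕ, (u = 1 ∨ u = 3 ∨ u = 5 ∨ u = 7 ∨ u = 21) ∧ p.Prime ∧ 5 ≤ p ∧ p ≤ 29 ∧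
          2 * A.card + 1 = u * p ^ k := by
  classical
  have hTI : T_TI := Pool.Agent.H27.GW.ti Pool.Agent.H27.GW.gf
  have hNT : T_NT := Pool.Agent.H41.GW.nt
  have hDI : T_DI := Pool.Agent.H41.GW.di hNT
  have hSB : T_SB := Pool.Agent.H81.GW.sb hDI
  have hMA : T_MA :=
    Pool.Agent.H24.GW.ma Pool.Agent.H81.GW.su Pool.Agent.H27.GW.vz Pool.Agent.H27.GW.pr hDI
  have hGP : T_GP := Pool.Agent.H24.GW.gp hMA hSB
  have hAR : T_AR := Pool.Agent.H81.GW.ar
  obtain ⟨m₁, h₁⟩ := hGP
  obtain ⟨m₂, h₂⟩ := hAR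
  refine ⟨max (max m₁ m₂) 20000, ?_⟩
  intro G _ _ A hm hA
  have := Fintype.ofFinite G
  obtain ⟨T, hT⟩ := hTI G A hA
  have e : Nat.card G = Fintype.card G := Nat.card_eq_fintype_card
  have h3 : ¬ 3 ∣ Fintype.card G :=
    hNT G T A.card hT (le_trans (le_max_right _ _) hm)
  have hp := h₁ A.card (le_trans (le_trans (le_max_left _ _) (le_max_left _ _)) hm) G T hT
  rw [e]
  exact ⟨h3, hp, h₂ A.card (Fintype.card G)
    (le_trans (le_trans (le_max_right _ _) (le_max_left _ _)) hm) hT.cardG h3 hp⟩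

end Pool.Agent.H23.Sup684.RadiusThreeSizes
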